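import Pool.Agent.helper84.QI.Spec

/-! # Project QI (MP_fd6eef_al), row MNM: the smallest normal subgroup -/

set_option autoImplicit false

namespace Pool.Agent.QI

theorem MNM : MNM_stmt := by
  intro G _ E _ m hinf hm hji
  have hb : ∀ N : Subgroup (G ⧸ E), N.Normal → N.FiniteIndex → N.index < m := by
    intro N hN hf
    have h1 : (N.comap (QuotientGroup.mk' E)).index = N.index :=
      Subgroup.index_comap_of_surjective N (QuotientGroup.mk'_surjective E)
    rw [← h1]
    refine hm _ (hN.comap _) ⟨?_⟩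
    rw [h1]
    exact hf.index_ne_zero
  set I : Set ℕ := {i | ∃ N : Subgroup (G ⧸ E), N.Normal ∧ N.FiniteIndex ∧ N.index = i} with hI
  have hne : I.Nonempty := ⟨_, ⊤, inferInstance, inferInstance, rfl⟩
  have hbd : BddAbove I := ⟨m, fun i ⟨N, h1, h2, h3⟩ => h3 ▸ (hb N h1 h2).le⟩
  obtain ⟨M, hMn, hMf, hMi⟩ := Nat.sSup_mem hne hbd
  have hmax : ∀ N : Subgroup (G ⧸ E), N.Normal → N.FiniteIndex → N.index ≤ M.index := by
    intro N h1 h2
    rw [hMi]
    exact le_csSup hbd ⟨N, h1, h2, rfl⟩
  have hle : ∀ N : Subgroup (G ⧸ E), N.Normal → N.FiniteIndex → M ≤ N := by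
    intro N h1 h2
    have h3 : (M ⊓ N).Normal := Subgroup.normal_inf_normal M N
    have h4 : (M ⊓ N).FiniteIndex := inferInstance
    have h5 := hmax _ h3 h4
    have h6 := Subgroup.relIndex_mul_index (inf_le_left : M ⊓ N ≤ M)
    have h7 : 0 < M.index := Nat.pos_of_ne_zero hMf.index_ne_zero
    have h8 : (M ⊓ N).relIndex M = 1 := by
      have h9 : (M ⊓ N).relIndex M ≤ 1 := by
        by_contra hcon
        have h10 : 2 ≤ (M ⊓ N).relIndex M := by omega
        have h11 : 2 * M.index ≤ (M ⊓ N).relIndex M * M.index := Nat.mul_le_mul_right _ h10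
        omega
      have h12 : (M ⊓ N).relIndex M ≠ 0 := by
        intro h0
        rw [h0, zero_mul] at h6
        exact h4.index_ne_zero h6.symm
      omega
    exact (Subgroup.relIndex_eq_one.1 h8).trans inf_le_right
  refine ⟨M, hMn, hMf, ?_, fun N h1 h2 => hle N h1 (hji N h1 h2), fun K hK => ?_⟩
  · intro h0
    have h1 := hMf.index_ne_zero
    rw [h0, Subgroup.index_bot] at h1
    exact h1 Nat.card_eq_zero_of_infinite
  · exact (hle K.normalCore inferInstance inferInstance).trans K.normalCore_le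

end Pool.Agent.QI
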